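import Pool.Agent.Q205.RS.Cohesive
import Pool.Agent.Q205.RS.Model

/-!
# The cohesiveness principle is not `Π¹₁`-conservative over `RCA*₀`

`RCA*₀ + COH` proves induction for `Σ⁰₁` formulas.  Suppose that `I` is a `Σ⁰₁` proper cut and that
`j` is a nondecreasing function with values in `I`, cofinal in `I`.  Consider the sequence of the sets
`R_r = {x | j(x) ∈ r}` for all codes `r` of finite sets.  If `X` is cohesive for it, then the image
`j[X]` is a cofinal subset of `I` which is coded by a finite set `y` (this uses `B Σ⁰₁` and `exp`); the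
set of every other element of `y` contradicts the cohesiveness of `X`.

On the other hand there is a model of `RCA*₀` in which `Σ⁰₁` induction fails: a cut of an ultrapower
of the natural numbers closed under the exponential function, with the traces of internal sets.
-/

set_option autoImplicit false

namespace Pool.Agent.Results.MP_a3848c_lc.NotConservative

open Pool.Agent.Q205.RS

/-- The term for the pair of two terms. -/
def pairT {C : Type} (s t : Term C) : Term C := .add (.mul (.add s t) (.add s t)) s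

/-- `∃ y, (t, y) ∈ X₀`; the variables of `t` are renamed by the caller. -/
def exT (t : Term Empty) : Formula Empty ℕ := .neg (.all (.neg (.mem (pairT t (.var 0)) 0)))

/-- Implication. -/
def impF (φ ψ : Formula Empty ℕ) : Formula Empty ℕ := .neg (.and φ (.neg ψ))

/-- The `Π¹₁` sentence: for every set `X`, if there is a `y` with `(0, y) ∈ X` and for every `n` such
that there is a `y` with `(n, y) ∈ X` there is a `y` with `(n + 1, y) ∈ X`, then for every `n` there is
a `y` with `(n, y) ∈ X`. -/
def ind : Formula Empty ℕ :=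
  impF (.and (exT .zero) (.all (impF (exT (.var 1)) (exT (.add (.var 1) .one)))))
    (.all (exT (.var 1)))

theorem ind_holds (N : L2Structure) : Pi11Holds N ind ↔ ∀ X ∈ N.Sets,
    (∃ y, pair N N.zero y ∈ X) → (∀ n, (∃ y, pair N n y ∈ X) → ∃ y, pair N (N.add n N.one) y ∈ X) →
    ∀ n, ∃ y, pair N n y ∈ X := by
  have key : ∀ (X : ℕ → Set N.M) (v : ℕ → N.M),
      ind.Holds N (fun e : Empty => e.elim) X v ↔
      ((∃ y, pair N N.zero y ∈ X 0) →
        (∀ n, (∃ y, pair N n y ∈ X 0) → ∃ y, pair N (N.add n N.one) y ∈ X 0) →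
        ∀ n, ∃ y, pair N n y ∈ X 0) := by
    intro X v
    show ¬ ((¬ (∀ y, ¬ pair N N.zero y ∈ X 0) ∧ ∀ n, ¬ (¬ (∀ y, ¬ pair N n y ∈ X 0) ∧
      ¬ ¬ (∀ y, ¬ pair N (N.add n N.one) y ∈ X 0))) ∧ ¬ ∀ n, ¬ (∀ y, ¬ pair N n y ∈ X 0)) ↔ _
    constructor
    · intro h h0 hs n
      by_contra hcon
      apply h
      refine ⟨⟨fun h1 => ?_, fun m hm => ?_⟩, fun h2 => ?_⟩
      · obtain ⟨y, hy⟩ := h0
        exact h1 y hy
      · obtain ⟨h1, h2⟩ := hm
        have h3 : ∃ y, pair N m y ∈ X 0 := by
          by_contra h4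
          exact h1 fun y hy => h4 ⟨y, hy⟩
        obtain ⟨y, hy⟩ := hs m h3
        exact h2 fun h5 => h5 y hy
      · exact h2 n fun y hy => hcon ⟨y, hy⟩
    · rintro h ⟨⟨h0, hs⟩, h2⟩
      apply h2
      intro n hn
      have h3 : ∃ y, pair N N.zero y ∈ X 0 := by
        by_contra h4
        exact h0 fun y hy => h4 ⟨y, hy⟩
      obtain ⟨y, hy⟩ := h h3 (fun m hm => by
        obtain ⟨y, hy⟩ := hm
        by_contra h5
        refine hs m ⟨fun h6 => h6 y hy, fun h6 => h6 fun z hz => h5 ⟨z, hz⟩⟩) n
      exact hn y hy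
  constructor
  · intro h X hX h0 hs n
    exact (key (fun _ => X) (fun _ => N.zero)).1 (h _ (fun _ => hX) _) h0 hs n
  · intro h X hX v
    exact (key X v).2 (h (X 0) (hX 0))

/-- **Negative answer to Q1.**  `RCA*₀ + COH` proves induction for `Σ⁰₁` formulas, and therefore it is
not `Π¹₁`-conservative over `RCA*₀`. -/
theorem result :
    (∀ N : L2Structure, IsRCA0Star N → COH N → Sigma1Induction N) ∧
    ¬ Pi11Conservative (fun N => IsRCA0Star N ∧ COH N) IsRCA0Star := by
  have h1 : ∀ N : L2Structure, IsRCA0Star N → COH N → Sigma1Induction N := by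
    intro N hN hcoh
    have : Mod N := ⟨hN⟩
    exact sigma1_induction hcoh
  refine ⟨h1, fun h => ?_⟩
  have h2 : Proves (fun N => IsRCA0Star N ∧ COH N) ind := by
    rintro N ⟨hN, hcoh⟩
    rw [ind_holds]
    intro X hX h0 hs n
    exact h1 N hN hcoh (.mem (pairT (.var 1) (.var 0)) ⟨X, hX⟩) trivial (fun _ => N.zero) h0 hs n
  have h3 := h ind h2 Model.Nm Model.isRCA0Star
  rw [ind_holds] at h3
  obtain ⟨X, hX, h4, h5, n, h6⟩ := Model.cut
  exact h6 (h3 X hX h4 h5 n)

end Pool.Agent.Results.MP_a3848c_lc.NotConservative
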